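import Pool.Agent.Helper27.REC.StmtsT2
import Pool.Agent.Helper28.REC.SLD

/-!
Generic elements in almost all characteristics.
-/

set_option autoImplicit false

open scoped Classical
open NumberField Polynomial

namespace REC

open Pool.Agent.Helper13.ZL (Pl q)
open MU

/-- a nonzero integral element is not killed in large characteristics -/
theorem gnl_nz {A : Type} [CommRing A] [IsDomain A] [CharZero A] {x : A} (hx : x ≠ 0)
    (hi : IsIntegral ℤ x) : ∃ N : ℕ, N ≠ 0 ∧ ∀ (Ω : Type) [Field Ω] (f : A →+* Ω), f x = 0 →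
      (N : Ω) = 0 := by
  have h1 := Ideal.comap_ne_bot_of_integral_mem (R := ℤ) (S := A) hx
    (Ideal.mem_span_singleton_self x) hi
  obtain ⟨n, hn, hn0⟩ := Submodule.exists_mem_ne_zero_of_ne_bot h1
  refine ⟨n.natAbs, by simpa using hn0, fun Ω _ f hf => ?_⟩
  rw [Ideal.mem_comap, Ideal.mem_span_singleton] at hn
  obtain ⟨y, hy⟩ := hn
  have h2 : ((n : ℤ) : Ω) = 0 := by
    have := congrArg f hy
    rw [map_mul, hf, zero_mul] at this
    simpa using this
  rcases Int.natAbs_eq n with h | h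
  · rw [h] at h2; simpa using h2
  · rw [h] at h2; simpa using h2

theorem gnl_char (Ω : Type) [Field Ω] : ¬ CharP Ω 1 := by
  intro h
  have := (CharP.cast_eq_zero_iff Ω 1 1).2 (dvd_refl 1)
  rw [Nat.cast_one] at this
  exact one_ne_zero this

theorem gnl_bd {l N : ℕ} (hl : l.Prime) {Ω : Type} [Field Ω] (h0 : (l : Ω) = 0)
    (hN : N ≠ 0) (h : (N : Ω) = 0) : l ≤ N := by
  have hc : CharP Ω l := by
    have := (CharP.exists Ω)
    obtain ⟨q, hq⟩ := this
    have h1 : q ∣ l := (CharP.cast_eq_zero_iff Ω q l).1 h0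
    rcases (Nat.dvd_prime hl).1 h1 with h2 | h2
    · subst h2
      exact absurd hq (gnl_char Ω)
    · subst h2; exact hq
  exact Nat.le_of_dvd (Nat.pos_of_ne_zero hN) ((CharP.cast_eq_zero_iff Ω l N).1 h)

theorem gnl_inj {L : Type} [Field L] [NumberField L] {Ω : Type} [Field Ω] [CharZero Ω]
    (ι : 𝓞 L →+* Ω) : Function.Injective ι := by
  rw [injective_iff_map_eq_zero]
  intro x hx
  by_contra hne
  obtain ⟨N, hN, h⟩ := gnl_nz hne (RingOfIntegers.isIntegral x)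
  exact hN (by exact_mod_cast h Ω ι hx)

theorem gnl_ne {G Ω : Type} [Group G] [Field Ω] {m : ℕ} (R : G →* Matrix (Fin m) (Fin m) Ω) (g : G)
    (α : Fin m → Ω) (h : (R g).charpoly = ∏ x, (Polynomial.X - C (α x))) (x : Fin m) : α x ≠ 0 := by
  intro h0
  have h1 : IsUnit (R g).det := by
    have : R g * R g⁻¹ = 1 := by rw [← map_mul, mul_inv_cancel, map_one]
    exact IsUnit.of_mul_eq_one _ (by rw [← Matrix.det_mul, this, Matrix.det_one])
  have h2 := congrArg (Polynomial.eval 0) h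
  rw [Polynomial.eval_prod, Finset.prod_eq_zero (Finset.mem_univ x) (by simp [h0]),
    Matrix.eval_charpoly] at h2
  have h3 : (Matrix.scalar (Fin m) (0 : Ω) - R g).det = (-1) ^ m * (R g).det := by
    rw [map_zero, zero_sub, Matrix.det_neg, Fintype.card_fin]
  rw [h3] at h2
  exact (mul_ne_zero (pow_ne_zero _ (by norm_num)) h1.ne_zero) h2

/-- relations with positive exponents -/
theorem gnl_rel {K : Type} [Field K] {t : ℕ} {m : Fin t → ℕ} (α : ∀ i, Fin (m i) → K)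
    (h0 : ∀ i x, α i x ≠ 0) (e : ∀ i, Fin (m i) → ℤ) :
    ∏ i, ∏ x, α i x ^ e i x = 1 ↔
      ∏ i, ∏ x, α i x ^ (e i x).toNat = ∏ i, ∏ x, α i x ^ (-e i x).toNat := by
  have h1 : ∀ i x, α i x ^ e i x = α i x ^ (e i x).toNat / α i x ^ (-e i x).toNat := by
    intro i x
    rcases le_total 0 (e i x) with h | h
    · have h2 : (-e i x).toNat = 0 := Int.toNat_of_nonpos (by omega)
      rw [h2, pow_zero, div_one, ← zpow_natCast, Int.toNat_of_nonneg h]
    · have h2 : (e i x).toNat = 0 := Int.toNat_of_nonpos h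
      rw [h2, pow_zero, one_div, ← zpow_natCast, Int.toNat_of_nonneg (by omega), zpow_neg,
        inv_inv]
  have h2 : ∏ i, ∏ x, α i x ^ e i x = (∏ i, ∏ x, α i x ^ (e i x).toNat) /
      ∏ i, ∏ x, α i x ^ (-e i x).toNat := by
    rw [← Finset.prod_div_distrib]
    refine Finset.prod_congr rfl fun i _ => ?_
    rw [← Finset.prod_div_distrib]
    exact Finset.prod_congr rfl fun x _ => h1 i x
  rw [h2, div_eq_one_iff_eq]
  exact Finset.prod_ne_zero_iff.2 fun i _ => Finset.prod_ne_zero_iff.2 fun x _ =>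
    pow_ne_zero _ (h0 i x)

theorem GNL (hCYC : ST_CYC) : ST_GNL := by
  intro F L _ _ _ _ t n₂ m S J w b ρ hCmp hG D
  obtain ⟨p, 𝔓, k, σ, hp, hpS, hov, hk, hσ, l₀, hl₀, Ω₀, _, _, ϑ₀, ι₀, R₀, α₀, hlp, hR₀, hrel⟩ :=
    hG D
  choose Φ hΦ using fun i => hCmp i p hp hpS 𝔓 hov k σ hk hσ
  have hι₀ : Function.Injective ι₀ := gnl_inj ι₀
  have hΦ₀ : ∀ i, (Φ i).map ι₀ = ∏ x, (Polynomial.X - C (α₀ i x)) := fun i => by
    rw [← hΦ i l₀ hlp Ω₀ ϑ₀ ι₀ (R₀ i) (hR₀ i).1, (hR₀ i).2]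
  have hmon : ∀ i, (Φ i).Monic := fun i => by
    apply Polynomial.monic_of_injective hι₀
    rw [hΦ₀]
    exact Polynomial.monic_prod_of_monic _ _ fun x _ => Polynomial.monic_X_sub_C _
  let _ : Algebra (𝓞 L) Ω₀ := ι₀.toAlgebra
  have hint : ∀ i x, IsIntegral (𝓞 L) (α₀ i x) := by
    intro i x
    refine ⟨Φ i, hmon i, ?_⟩
    change (Φ i).eval₂ ι₀ _ = 0
    rw [← Polynomial.eval_map, hΦ₀, Polynomial.eval_prod]
    exact Finset.prod_eq_zero (Finset.mem_univ x) (by simp)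
  let A := integralClosure (𝓞 L) Ω₀
  let a : ∀ i, Fin (m i) → A := fun i x => ⟨α₀ i x, hint i x⟩
  have hAinj : Function.Injective (algebraMap (𝓞 L) A) := by
    intro x y hxy
    apply hι₀
    exact congrArg (fun z : A => (z : Ω₀)) hxy
  have hΦA : ∀ i, (Φ i).map (algebraMap (𝓞 L) A) = ∏ x, (Polynomial.X - C (a i x)) := by
    intro i
    apply Polynomial.map_injective (A.val : A →+* Ω₀) Subtype.val_injective
    rw [Polynomial.map_map, Polynomial.map_prod]
    have h1 : ((A.val : A →+* Ω₀)).comp (algebraMap (𝓞 L) A) = ι₀ := rfl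
    rw [h1, hΦ₀]
    refine Finset.prod_congr rfl fun x _ => ?_
    rw [Polynomial.map_sub, Polynomial.map_X, Polynomial.map_C]
    rfl
  have hZ : ∀ x : A, IsIntegral ℤ x := by
    intro x
    have h1 : IsIntegral (𝓞 L) x := Algebra.IsIntegral.isIntegral x
    exact isIntegral_trans x h1
  have hz₀ : ∀ i x, α₀ i x ≠ 0 := fun i x => gnl_ne (R₀ i) σ⁻¹ (α₀ i) (hR₀ i).2 x
  -- the finitely many integral elements
  let ν : (∀ i, Fin (m i) → ℤ) → A := fun e => (∏ i, ∏ x, a i x ^ (e i x).toNat) -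
    ∏ i, ∏ x, a i x ^ (-e i x).toNat
  let μ : (∀ i : Fin t, Fin (m i) × Fin (m i)) → Fin t → A := fun y i =>
    a i (y i).1 * a i (y i).2 - (p : A) ^ (k * w i)
  have hν : ∀ e, ∃ N : ℕ, ∀ (l : ℕ) (Ω : Type) [Field Ω] (f : A →+* Ω), l.Prime → N < l →
      (l : Ω) = 0 → f (ν e) = 0 → ν e = 0 := by
    intro e
    by_cases h : ν e = 0
    · exact ⟨0, fun _ _ _ _ _ _ _ _ => h⟩
    · obtain ⟨N, hN, h2⟩ := gnl_nz h (hZ _)
      refine ⟨N, fun l Ω _ f hl hlN h0 hf => ?_⟩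
      have := gnl_bd hl h0 hN (h2 Ω f hf)
      omega
  have hμ : ∀ i (x y : Fin (m i)), ∃ N : ℕ, ∀ (l : ℕ) (Ω : Type) [Field Ω] (f : A →+* Ω),
      l.Prime → N < l → (l : Ω) = 0 → f (a i x * a i y - (p : A) ^ (k * w i)) = 0 →
      a i x * a i y - (p : A) ^ (k * w i) = 0 := by
    intro i x y
    by_cases h : a i x * a i y - (p : A) ^ (k * w i) = 0
    · exact ⟨0, fun _ _ _ _ _ _ _ _ => h⟩
    · obtain ⟨N, hN, h2⟩ := gnl_nz h (hZ _)
      refine ⟨N, fun l Ω _ f hl hlN h0 hf => ?_⟩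
      have := gnl_bd hl h0 hN (h2 Ω f hf)
      omega
  choose c₁ hc₁ using hν
  choose c₂ hc₂ using hμ
  let E : Finset (∀ i, Fin (m i) → ℤ) := Fintype.piFinset fun i => Fintype.piFinset fun _ =>
    Finset.Icc (-(D : ℤ)) D
  refine ⟨p + E.sup c₁ + Finset.univ.sup (fun i => Finset.univ.sup fun x =>
    Finset.univ.sup fun y => c₂ i x y), ?_⟩
  intro l hlf hl Ω _ _ ϑ ι R h0 hAt
  obtain ⟨θ, hθ⟩ := sld_ext hAinj ι
  have hθ' : θ.comp (algebraMap (𝓞 L) A) = ι := RingHom.ext hθ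
  have hch : ∀ i, (R i σ⁻¹).charpoly = ∏ x, (Polynomial.X - C (θ (a i x))) := by
    intro i
    rw [hΦ i l (by omega) Ω ϑ ι (R i) (hAt i), ← hθ', ← Polynomial.map_map, hΦA,
      Polynomial.map_prod]
    refine Finset.prod_congr rfl fun x _ => ?_
    rw [Polynomial.map_sub, Polynomial.map_X, Polynomial.map_C]
  have hz : ∀ i x, θ (a i x) ≠ 0 := fun i x =>
    gnl_ne (R i) σ⁻¹ (fun x => θ (a i x)) (hch i) x
  have hcy : cyv ϑ σ⁻¹ = (p : Ω) ^ k := by
    unfold cyv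
    rw [inv_inv, hCYC F F l p hp (by omega) 𝔓 hov k σ hσ, map_pow, map_natCast]
  refine ⟨σ⁻¹, fun i x => θ (a i x), hch, ?_⟩
  intro e he1 he2 he3
  rw [gnl_rel _ hz] at he3
  have hmem : e ∈ E := by
    simp only [E, Fintype.mem_piFinset, Finset.mem_Icc]
    intro i x
    exact abs_le.1 (he1 i x)
  have hle : c₁ e ≤ E.sup c₁ := Finset.le_sup (f := c₁) hmem
  have h1 : ν e = 0 := by
    apply hc₁ e l Ω θ hlf.out (by omega) h0
    simp only [ν, map_sub, map_prod, map_pow]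
    rw [sub_eq_zero]
    exact he3
  have h2 : ∏ i, ∏ x, α₀ i x ^ e i x = 1 := by
    rw [gnl_rel _ hz₀]
    have h3 := congrArg (fun z : A => (z : Ω₀)) h1
    simp only [ν] at h3
    have h4 : ((∏ i, ∏ x, a i x ^ (e i x).toNat : A) : Ω₀) -
        ((∏ i, ∏ x, a i x ^ (-e i x).toNat : A) : Ω₀) = 0 := h3
    rw [sub_eq_zero] at h4
    have h5 : ∀ f : ∀ i, Fin (m i) → ℕ, ((∏ i, ∏ x, a i x ^ f i x : A) : Ω₀) =
        ∏ i, ∏ x, α₀ i x ^ f i x := by
      intro f
      have : ((∏ i, ∏ x, a i x ^ f i x : A) : Ω₀) = (A.val : A →+* Ω₀) (∏ i, ∏ x, a i x ^ f i x) :=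
        rfl
      rw [this, map_prod]
      refine Finset.prod_congr rfl fun i _ => ?_
      rw [map_prod]
      refine Finset.prod_congr rfl fun x _ => ?_
      rw [map_pow]
      rfl
    rw [h5, h5] at h4
    exact h4
  intro i x
  obtain ⟨h3, h4⟩ := hrel e he1 he2 h2 i x
  refine ⟨h3, fun hJ y hy => h4 hJ y ?_⟩
  have hle2 : c₂ i x y ≤ Finset.univ.sup (fun i => Finset.univ.sup fun x =>
      Finset.univ.sup fun y => c₂ i x y) := by
    refine le_trans ?_ (Finset.le_sup (f := fun i => Finset.univ.sup fun x =>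
      Finset.univ.sup fun y => c₂ i x y) (Finset.mem_univ i))
    refine le_trans ?_ (Finset.le_sup (f := fun x => Finset.univ.sup fun y => c₂ i x y)
      (Finset.mem_univ x))
    exact Finset.le_sup (f := fun y => c₂ i x y) (Finset.mem_univ y)
  have h5 : a i x * a i y - (p : A) ^ (k * w i) = 0 := by
    apply hc₂ i x y l Ω θ hlf.out (by omega) h0
    rw [map_sub, map_mul, map_pow, map_natCast]
    simp only at hy
    rw [hy, hcy, ← pow_mul, sub_self]
  have h6 := congrArg (fun z : A => (z : Ω₀)) h5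
  have h7 : α₀ i x * α₀ i y - (p : Ω₀) ^ (k * w i) = 0 := by
    have : ((a i x * a i y - (p : A) ^ (k * w i) : A) : Ω₀) =
        α₀ i x * α₀ i y - (p : Ω₀) ^ (k * w i) := by
      have : ((a i x * a i y - (p : A) ^ (k * w i) : A) : Ω₀) =
        (A.val : A →+* Ω₀) (a i x * a i y - (p : A) ^ (k * w i)) := rfl
      rw [this, map_sub, map_mul, map_pow, map_natCast]
      rfl
    rw [← this]
    exact h6
  exact sub_eq_zero.1 h7

end REC
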