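import Mathlib

/-!
Generation of the symplectic group by transvections.
-/

namespace Pool.Agent.Helper95.GSP

open Matrix Module

variable {K : Type} [Field K] {n : ℕ}

/-- the transvection `w ↦ w + a ⟨v, w⟩ v` -/
def Tv (J : Matrix (Fin n) (Fin n) K) (v : Fin n → K) (a : K) : Matrix (Fin n) (Fin n) K :=
  1 + a • (vecMulVec v v * J)

/-- the form -/
def B (J : Matrix (Fin n) (Fin n) K) (v w : Fin n → K) : K := v ⬝ᵥ J *ᵥ w

theorem Tv_mulVec (J : Matrix (Fin n) (Fin n) K) (v w : Fin n → K) (a : K) :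
    Tv J v a *ᵥ w = w + (a * B J v w) • v := by
  unfold Tv B
  rw [add_mulVec, one_mulVec, smul_mulVec, ← mulVec_mulVec, vecMulVec_mulVec, mul_smul]
  simp

variable {J : Matrix (Fin n) (Fin n) K}

theorem B_add_right (v w w' : Fin n → K) : B J v (w + w') = B J v w + B J v w' := by
  unfold B; rw [mulVec_add, dotProduct_add]

theorem B_sub_right (v w w' : Fin n → K) : B J v (w - w') = B J v w - B J v w' := by
  unfold B; rw [mulVec_sub, dotProduct_sub]

theorem B_add_left (v v' w : Fin n → K) : B J (v + v') w = B J v w + B J v' w := by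
  unfold B; rw [add_dotProduct]

theorem B_sub_left (v v' w : Fin n → K) : B J (v - v') w = B J v w - B J v' w := by
  unfold B; rw [sub_dotProduct]

theorem B_smul_right (v w : Fin n → K) (a : K) : B J v (a • w) = a * B J v w := by
  unfold B; rw [mulVec_smul, dotProduct_smul, smul_eq_mul]

theorem B_smul_left (v w : Fin n → K) (a : K) : B J (a • v) w = a * B J v w := by
  unfold B; rw [smul_dotProduct, smul_eq_mul]

theorem B_swap (hJt : J.transpose = -J) (v w : Fin n → K) : B J v w = - B J w v := by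
  unfold B
  rw [dotProduct_mulVec, ← mulVec_transpose, hJt, neg_mulVec, neg_dotProduct, dotProduct_comm]

theorem B_self [CharZero K] (hJt : J.transpose = -J) (v : Fin n → K) : B J v v = 0 := by
  have := B_swap hJt v v
  have h2 : (2 : K) * B J v v = 0 := by linear_combination this
  rcases mul_eq_zero.1 h2 with h | h
  · exact absurd h two_ne_zero
  · exact h

theorem B_iso {x : Matrix (Fin n) (Fin n) K} (hx : x.transpose * J * x = J) (v w : Fin n → K) :
    B J (x *ᵥ v) (x *ᵥ w) = B J v w := by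
  unfold B
  conv_rhs => rw [← hx]
  rw [dotProduct_comm, dotProduct_mulVec, ← mulVec_transpose, dotProduct_comm]
  simp only [mulVec_mulVec, Matrix.mul_assoc]

theorem B_nondeg (hJ : IsUnit J.det) {v : Fin n → K} (h : ∀ w, B J v w = 0) : v = 0 := by
  have h1 : ∀ w, v ⬝ᵥ w = 0 := by
    intro w
    have := h (J⁻¹ *ᵥ w)
    unfold B at this
    rw [mulVec_mulVec, mul_nonsing_inv J hJ, one_mulVec] at this
    exact this
  ext i
  have := h1 (Pi.single i 1)
  simpa using this

/-- the generators -/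
def Gen (J : Matrix (Fin n) (Fin n) K) : Set (Matrix (Fin n) (Fin n) K) :=
  {y : Matrix (Fin n) (Fin n) K | ∃ (v : Fin n → K) (a : K),
      y = 1 + a • (Matrix.vecMulVec v v * J)}

theorem Tv_mem (v : Fin n → K) (a : K) : Tv J v a ∈ Submonoid.closure (Gen J) :=
  Submonoid.subset_closure ⟨v, a, rfl⟩

theorem Tv_iso [CharZero K] (hJt : J.transpose = -J) (v : Fin n → K) (a : K) :
    (Tv J v a).transpose * J * Tv J v a = J := by
  have h0 : vecMulVec v v * J * (vecMulVec v v) = 0 := by
    have h2 : vecMulVec v v * J * vecMulVec v v = (B J v v) • vecMulVec v v := by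
      ext i j
      rw [mul_apply]
      simp only [Matrix.smul_apply, smul_eq_mul, vecMulVec_apply, mul_apply]
      unfold B
      simp only [dotProduct, mulVec, Finset.sum_mul, Finset.mul_sum]
      rw [Finset.sum_comm]
      refine Finset.sum_congr rfl fun y _ => Finset.sum_congr rfl fun x _ => ?_
      ring
    rw [h2, B_self hJt, zero_smul]
  have h1 : (Tv J v a).transpose = 1 - a • (J * vecMulVec v v) := by
    unfold Tv
    rw [transpose_add, transpose_one, transpose_smul, transpose_mul, transpose_vecMulVec, hJt,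
      neg_mul, smul_neg, sub_eq_add_neg]
  rw [h1]
  unfold Tv
  have h3 : J * vecMulVec v v * J * (vecMulVec v v * J) = 0 := by
    have : J * vecMulVec v v * J * (vecMulVec v v * J) =
        J * (vecMulVec v v * J * vecMulVec v v) * J := by
      simp only [Matrix.mul_assoc]
    rw [this, h0]; simp
  simp only [Matrix.sub_mul, Matrix.mul_add, Matrix.one_mul, Matrix.mul_one, Matrix.smul_mul,
    Matrix.mul_smul, h3, smul_zero]
  simp only [Matrix.mul_assoc]
  abel_nf

theorem iso_mul {x y : Matrix (Fin n) (Fin n) K} (hx : x.transpose * J * x = J)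
    (hy : y.transpose * J * y = J) : (x * y).transpose * J * (x * y) = J := by
  rw [transpose_mul]
  calc y.transpose * x.transpose * J * (x * y) = y.transpose * (x.transpose * J * x) * y := by
        simp only [Matrix.mul_assoc]
    _ = J := by rw [hx, hy]

theorem Tv_inv [CharZero K] (hJt : J.transpose = -J) (v : Fin n → K) (a : K) :
    Tv J v a * Tv J v (-a) = 1 := by
  apply Matrix.ext_of_mulVec_single
  intro i
  rw [← mulVec_mulVec, Tv_mulVec, Tv_mulVec, B_add_right, B_smul_right, B_self hJt]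
  ext j
  simp [Matrix.one_apply, Pi.single_apply]

theorem Tv_fix {v w : Fin n → K} (a : K) (h : B J v w = 0) : Tv J v a *ᵥ w = w := by
  rw [Tv_mulVec, h]; simp

/-- the main step -/
theorem step [CharZero K] (hJ : IsUnit J.det) (hJt : J.transpose = -J)
    {x : Matrix (Fin n) (Fin n) K} (hx : x.transpose * J * x = J) {v : Fin n → K}
    (hv : x *ᵥ v ≠ v) :
    ∃ τ τ' : Matrix (Fin n) (Fin n) K, τ ∈ Submonoid.closure (Gen J) ∧
      τ'.transpose * J * τ' = J ∧ τ * τ' = 1 ∧ τ' *ᵥ (x *ᵥ v) = v ∧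
      ∀ f, x *ᵥ f = f → τ' *ᵥ f = f := by
  have hR : ∀ f z, x *ᵥ f = f → B J (x *ᵥ z - z) f = 0 := by
    intro f z hf
    rw [B_sub_left]
    have := B_iso hx z f
    rw [hf] at this
    rw [this, sub_self]
  by_cases h1 : B J v (x *ᵥ v) = 0
  · -- existence of r
    have hex : ∃ z, B J (v - x *ᵥ v) z ≠ 0 := by
      by_contra hcon
      push Not at hcon
      have := B_nondeg hJ hcon
      exact hv (sub_eq_zero.1 this).symm
    obtain ⟨z, hz⟩ := hex
    have hdet : IsUnit x.det := by
      have := congrArg Matrix.det hx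
      rw [det_mul, det_mul, det_transpose] at this
      have h3 : x.det * x.det = 1 := by
        have h4 : J.det ≠ 0 := hJ.ne_zero
        apply mul_right_cancel₀ h4
        linear_combination this
      exact IsUnit.of_mul_eq_one _ h3
    set z' := x⁻¹ *ᵥ z with hz'
    have hxz' : x *ᵥ z' = z := by
      rw [hz', mulVec_mulVec, mul_nonsing_inv x hdet, one_mulVec]
    have e1 : B J v (x *ᵥ z' - z') ≠ 0 := by
      rw [B_sub_right, ← B_iso hx v z', hxz', ← B_sub_left]
      exact hz
    have e2 : B J (x *ᵥ v) (x *ᵥ z - z) ≠ 0 := by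
      rw [B_sub_right, B_iso hx v z, ← B_sub_left]
      exact hz
    obtain ⟨y, hy1, hy2⟩ : ∃ y, B J v (x *ᵥ y - y) ≠ 0 ∧ B J (x *ᵥ v) (x *ᵥ y - y) ≠ 0 := by
      by_cases h3 : B J (x *ᵥ v) (x *ᵥ z' - z') = 0
      · by_cases h4 : B J v (x *ᵥ z - z) = 0
        · refine ⟨z' + z, ?_, ?_⟩
          · rw [mulVec_add, add_sub_add_comm, B_add_right, h4, add_zero]; exact e1
          · rw [mulVec_add, add_sub_add_comm, B_add_right, h3, zero_add]; exact e2
        · exact ⟨z, h4, e2⟩
      · exact ⟨z', e1, h3⟩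
    set r := x *ᵥ y - y with hr
    set w := x *ᵥ v - (v + r) with hw
    have hwR : w = x *ᵥ (v - y) - (v - y) := by
      rw [hw, hr, mulVec_sub]; abel
    have hrv : B J r v ≠ 0 := by
      rw [B_swap hJt]; exact neg_ne_zero.2 hy1
    have hwz : B J w (v + r) ≠ 0 := by
      rw [hw, B_sub_left, B_self hJt, sub_zero, B_add_right, B_swap hJt (x *ᵥ v) v, h1]
      simpa using hy2
    have f1 : Tv J r (B J r v)⁻¹ *ᵥ v = v + r := by
      rw [Tv_mulVec, inv_mul_cancel₀ hrv, one_smul]
    have f2 : Tv J w (B J w (v + r))⁻¹ *ᵥ (v + r) = x *ᵥ v := by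
      rw [Tv_mulVec, inv_mul_cancel₀ hwz, one_smul, hw]; abel
    have hinv := Tv_inv (J := J) hJt
    have hinv' : ∀ (v : Fin n → K) (a : K), Tv J v (-a) * Tv J v a = 1 := by
      intro v a
      have := hinv v (-a)
      rwa [neg_neg] at this
    refine ⟨Tv J w (B J w (v + r))⁻¹ * Tv J r (B J r v)⁻¹,
      Tv J r (-(B J r v)⁻¹) * Tv J w (-(B J w (v + r))⁻¹),
      mul_mem (Tv_mem _ _) (Tv_mem _ _), iso_mul (Tv_iso hJt _ _) (Tv_iso hJt _ _), ?_, ?_, ?_⟩
    · calc Tv J w (B J w (v + r))⁻¹ * Tv J r (B J r v)⁻¹ *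
          (Tv J r (-(B J r v)⁻¹) * Tv J w (-(B J w (v + r))⁻¹)) =
          Tv J w (B J w (v + r))⁻¹ * (Tv J r (B J r v)⁻¹ * Tv J r (-(B J r v)⁻¹)) *
            Tv J w (-(B J w (v + r))⁻¹) := by simp only [Matrix.mul_assoc]
        _ = 1 := by rw [hinv, Matrix.mul_one, hinv]
    · have f3 : (Tv J w (B J w (v + r))⁻¹ * Tv J r (B J r v)⁻¹) *ᵥ v = x *ᵥ v := by
        rw [← mulVec_mulVec, f1, f2]
      rw [← f3, mulVec_mulVec]
      have : Tv J r (-(B J r v)⁻¹) * Tv J w (-(B J w (v + r))⁻¹) *
          (Tv J w (B J w (v + r))⁻¹ * Tv J r (B J r v)⁻¹) = 1 := by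
        calc _ = Tv J r (-(B J r v)⁻¹) * (Tv J w (-(B J w (v + r))⁻¹) *
            Tv J w (B J w (v + r))⁻¹) * Tv J r (B J r v)⁻¹ := by simp only [Matrix.mul_assoc]
          _ = 1 := by rw [hinv', Matrix.mul_one, hinv']
      rw [this, one_mulVec]
    · intro f hf
      have g1 : B J w f = 0 := by rw [hwR]; exact hR f _ hf
      rw [← mulVec_mulVec, Tv_fix _ g1, Tv_fix _ (hR f y hf)]
  · set w := x *ᵥ v - v with hw
    have hwv : B J w v ≠ 0 := by
      rw [hw, B_sub_left, B_self hJt, sub_zero, B_swap hJt]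
      exact neg_ne_zero.2 h1
    have f1 : Tv J w (B J w v)⁻¹ *ᵥ v = x *ᵥ v := by
      rw [Tv_mulVec, inv_mul_cancel₀ hwv, one_smul, hw]; abel
    refine ⟨Tv J w (B J w v)⁻¹, Tv J w (-(B J w v)⁻¹), Tv_mem _ _, Tv_iso hJt _ _,
      Tv_inv hJt _ _, ?_, ?_⟩
    · rw [← f1, mulVec_mulVec]
      have := Tv_inv (J := J) hJt w (-(B J w v)⁻¹)
      rw [neg_neg] at this
      rw [this, one_mulVec]
    · intro f hf
      exact Tv_fix _ (hR f v hf)

theorem core [CharZero K] (hJ : IsUnit J.det) (hJt : J.transpose = -J) : ∀ (k : ℕ)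
    (x : Matrix (Fin n) (Fin n) K), x.transpose * J * x = J →
    n ≤ k + finrank K (LinearMap.ker (mulVecLin (x - 1))) → x ∈ Submonoid.closure (Gen J) := by
  intro k
  induction k with
  | zero =>
    intro x hx hk
    have h1 : LinearMap.ker (mulVecLin (x - 1)) = ⊤ := by
      apply Submodule.eq_top_of_finrank_eq
      apply le_antisymm (Submodule.finrank_le _)
      rw [Module.finrank_fin_fun]; omega
    have h2 : x = 1 := by
      apply Matrix.ext_of_mulVec_single
      intro i
      have : (Pi.single i 1 : Fin n → K) ∈ LinearMap.ker (mulVecLin (x - 1)) := by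
        rw [h1]; trivial
      rw [LinearMap.mem_ker, mulVecLin_apply, sub_mulVec, one_mulVec, sub_eq_zero] at this
      rw [this, one_mulVec]
    rw [h2]; exact one_mem _
  | succ k ih =>
    intro x hx hk
    by_cases h : ∀ v, x *ᵥ v = v
    · have h2 : x = 1 := by
        apply Matrix.ext_of_mulVec_single
        intro i
        rw [h, one_mulVec]
      rw [h2]; exact one_mem _
    · push Not at h
      obtain ⟨v, hv⟩ := h
      obtain ⟨τ, τ', h1, h2, h3, h4, h5⟩ := step hJ hJt hx hv
      have h6 : x = τ * (τ' * x) := by rw [← Matrix.mul_assoc, h3, Matrix.one_mul]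
      rw [h6]
      apply mul_mem h1
      apply ih _ (iso_mul h2 hx)
      have hlt : LinearMap.ker (mulVecLin (x - 1)) < LinearMap.ker (mulVecLin (τ' * x - 1)) := by
        rw [SetLike.lt_iff_le_and_exists]
        constructor
        · intro f hf
          rw [LinearMap.mem_ker, mulVecLin_apply, sub_mulVec, one_mulVec, sub_eq_zero] at hf ⊢
          rw [← mulVec_mulVec, hf, h5 f hf]
        · refine ⟨v, ?_, ?_⟩
          · rw [LinearMap.mem_ker, mulVecLin_apply, sub_mulVec, one_mulVec, sub_eq_zero,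
              ← mulVec_mulVec, h4]
          · rw [LinearMap.mem_ker, mulVecLin_apply, sub_mulVec, one_mulVec, sub_eq_zero]
            exact hv
      have := Submodule.finrank_lt_finrank_of_lt hlt
      omega

end Pool.Agent.Helper95.GSP
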