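import Pool.Agent.Helper27.REC.StmtsT
import Pool.Agent.Helper95.REC.GSPc

namespace REC

theorem GSP : ST_GSP := fun _ _ _ _ _ hJ hJt x hx =>
  Pool.Agent.Helper95.GSP.core hJ hJt _ x hx (Nat.le_add_right _ _)

end REC
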