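import Pool.Agent.Helper57.REC.Stmts1

/-!
# GLP: Lipschitz bound for `gs`, uniformly in `s`   [helper95]
-/

set_option autoImplicit false

open scoped Classical
open NumberField MeasureTheory

namespace REC
namespace GLP95

variable {F : Type} [Field F] [NumberField F]

/-! ## Real functions -/

theorem prod_lip {ι : Type} (S : Finset ι) (a b : ι → ℝ) (ha : ∀ i, 0 ≤ a i ∧ a i ≤ 1)
    (hb : ∀ i, 0 ≤ b i ∧ b i ≤ 1) :
    |∏ i ∈ S, a i - ∏ i ∈ S, b i| ≤ ∑ i ∈ S, |a i - b i| := by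
  induction S using Finset.induction_on with
  | empty => simp
  | insert j S hj ih =>
    rw [Finset.prod_insert hj, Finset.prod_insert hj, Finset.sum_insert hj]
    have h1 : a j * ∏ i ∈ S, a i - b j * ∏ i ∈ S, b i =
        (a j - b j) * ∏ i ∈ S, a i + b j * (∏ i ∈ S, a i - ∏ i ∈ S, b i) := by ring
    rw [h1]
    have h2 : |∏ i ∈ S, a i| ≤ 1 := by
      rw [abs_of_nonneg (Finset.prod_nonneg fun i _ => (ha i).1)]
      exact Finset.prod_le_one (fun i _ => (ha i).1) (fun i _ => (ha i).2)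
    have h3 : |b j| ≤ 1 := by rw [abs_of_nonneg (hb j).1]; exact (hb j).2
    calc _ ≤ |(a j - b j) * ∏ i ∈ S, a i| + |b j * (∏ i ∈ S, a i - ∏ i ∈ S, b i)| := abs_add_le _ _
      _ = |a j - b j| * |∏ i ∈ S, a i| + |b j| * |∏ i ∈ S, a i - ∏ i ∈ S, b i| := by
          rw [abs_mul, abs_mul]
      _ ≤ |a j - b j| * 1 + 1 * |∏ i ∈ S, a i - ∏ i ∈ S, b i| := by
          gcongr
      _ ≤ _ := by linarith

theorem exp_lip (u v m : ℝ) (hu : u ≤ m) (hv : v ≤ m) :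
    |Real.exp u - Real.exp v| ≤ Real.exp m * |u - v| := by
  wlog h : v ≤ u generalizing u v
  · rw [abs_sub_comm, abs_sub_comm u v]
    exact this v u hv hu (not_le.mp h).le
  rw [abs_of_nonneg (by linarith [Real.exp_le_exp.mpr h]), abs_of_nonneg (by linarith)]
  have h1 : Real.exp v = Real.exp u * Real.exp (v - u) := by rw [← Real.exp_add]; ring_nf
  have h2 : (v - u) + 1 ≤ Real.exp (v - u) := Real.add_one_le_exp _
  have h3 : Real.exp u ≤ Real.exp m := Real.exp_le_exp.mpr hu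
  have h4 : 0 < Real.exp u := Real.exp_pos _
  calc Real.exp u - Real.exp v = Real.exp u * (1 - Real.exp (v - u)) := by rw [h1]; ring
    _ ≤ Real.exp u * (u - v) := mul_le_mul_of_nonneg_left (by linarith) h4.le
    _ ≤ Real.exp m * (u - v) := mul_le_mul_of_nonneg_right h3 (by linarith)

theorem rpow_lip (a b m s : ℝ) (hm : 0 < m) (ha : m ≤ a) (hb : m ≤ b) (hs : 0 ≤ s) :
    |a ^ (-s) - b ^ (-s)| ≤ m ^ (-s) * (s * |Real.log a - Real.log b|) := by
  rw [Real.rpow_def_of_pos (by linarith), Real.rpow_def_of_pos (by linarith),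
    Real.rpow_def_of_pos hm]
  have h1 : Real.log m ≤ Real.log a := Real.log_le_log hm ha
  have h2 : Real.log m ≤ Real.log b := Real.log_le_log hm hb
  have := exp_lip (Real.log a * -s) (Real.log b * -s) (Real.log m * -s) (by nlinarith)
    (by nlinarith)
  have h3 : |Real.log a * -s - Real.log b * -s| = s * |Real.log a - Real.log b| := by
    have : Real.log a * -s - Real.log b * -s = -(s * (Real.log a - Real.log b)) := by ring
    rw [this, abs_neg, abs_mul, abs_of_nonneg hs]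
  rw [h3] at this
  exact this

theorem log_lip (a b m : ℝ) (hm : 0 < m) (ha : m ≤ a) (hb : m ≤ b) :
    |Real.log a - Real.log b| ≤ |a - b| / m := by
  wlog h : b ≤ a generalizing a b
  · rw [abs_sub_comm, abs_sub_comm a b]
    exact this b a hb ha (not_le.mp h).le
  have hb0 : 0 < b := by linarith
  have ha0 : 0 < a := by linarith
  rw [abs_of_nonneg (by linarith [Real.log_le_log hb0 h]), abs_of_nonneg (by linarith)]
  rw [← Real.log_div ha0.ne' hb0.ne']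
  have h1 := Real.log_le_sub_one_of_pos (div_pos ha0 hb0)
  have h2 : a / b - 1 = (a - b) / b := by field_simp
  rw [h2] at h1
  refine h1.trans ?_
  exact div_le_div_of_nonneg_left (by linarith) hm hb

/-- the cutoff -/
theorem cut_lip (a b : ℝ) (ha : 1 < a) (h : |a - b| ≤ a / 2) :
    |max 0 (min 1 (a - 1)) - max 0 (min 1 (b - 1))| ≤ 4 * |a - b| / a := by
  rcases le_or_gt 4 a with h4 | h4
  · have hb : 2 ≤ b := by
      have := le_abs_self (a - b)
      linarith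
    rw [min_eq_left (by linarith), min_eq_left (by linarith)]
    simp only [sub_self, abs_zero]
    positivity
  · have h1 : |max 0 (min 1 (a - 1)) - max 0 (min 1 (b - 1))| ≤ |a - b| := by
      have h2 := abs_max_sub_max_le_max (0 : ℝ) (min 1 (a - 1)) 0 (min 1 (b - 1))
      have h3 := abs_min_sub_min_le_max (1 : ℝ) (a - 1) 1 (b - 1)
      have h5 : a - 1 - (b - 1) = a - b := by ring
      rw [h5] at h3
      simp only [sub_self, abs_zero] at h2 h3
      refine h2.trans ?_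
      rw [max_eq_right (abs_nonneg _)]
      refine h3.trans ?_
      rw [max_eq_right (abs_nonneg _)]
    refine h1.trans ?_
    rw [le_div_iff₀ (by linarith)]
    nlinarith [abs_nonneg (a - b)]

theorem aux_inv (a b ρ : ℝ) (k : ℕ) (ha : 0 ≤ a) (hb : 0 ≤ b) (hρ : 0 ≤ ρ) (h : a ≤ b + ρ) :
    ((1 + b) ^ k)⁻¹ ≤ (1 + ρ) ^ k * ((1 + a) ^ k)⁻¹ := by
  rw [← div_eq_mul_inv, ← div_pow, ← inv_pow]
  refine pow_le_pow_left₀ (by positivity) ?_ _
  rw [inv_eq_one_div, div_le_div_iff₀ (by positivity) (by positivity)]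
  nlinarith [mul_nonneg hb hρ]

theorem aux_fin (D t ρ : ℝ) (e : ℝ) (k : ℕ) (hD : 0 ≤ D) (ht : 0 ≤ t) (he : 0 ≤ e) (hρ : 0 ≤ ρ) :
    D * t * e ≤ D * (1 + ρ) ^ k * t * e := by
  refine mul_le_mul_of_nonneg_right (mul_le_mul_of_nonneg_right ?_ ht) he
  exact le_mul_of_one_le_right hD (one_le_pow₀ (by linarith))

theorem aux_far (B E c ρ X t g : ℝ) (k : ℕ) (hB : 0 ≤ B) (hE : 0 ≤ E) (hc : 0 < c)
    (hX : 1 < X) (ht : t ≤ ρ) (h : c / 2 * X < t) (hg : g ≤ 2 * B) :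
    g ≤ (E * 2 ^ k + 2 * B * (2 / c) * (1 + 2 * ρ / c) ^ k) * t * ((1 + X) ^ k)⁻¹ := by
  have h2 : c / 2 ≤ t := by nlinarith
  have ht0 : 0 ≤ t := by linarith
  have h3 : X ≤ 2 * ρ / c := by
    rw [le_div_iff₀ hc]
    nlinarith
  have h4 : 1 ≤ (1 + 2 * ρ / c) ^ k * ((1 + X) ^ k)⁻¹ := by
    rw [← div_eq_mul_inv, ← div_pow]
    apply one_le_pow₀
    rw [one_le_div (by positivity)]
    linarith
  have h5 : 1 ≤ 2 / c * t := by
    rw [div_mul_eq_mul_div, one_le_div hc]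
    linarith
  have h6 : 2 * B * 1 * 1 ≤ 2 * B * (2 / c * t) * ((1 + 2 * ρ / c) ^ k * ((1 + X) ^ k)⁻¹) :=
    mul_le_mul (mul_le_mul_of_nonneg_left h5 (by positivity)) h4 zero_le_one (by positivity)
  have h7 : 0 ≤ (E * 2 ^ k) * t * ((1 + X) ^ k)⁻¹ := by positivity
  calc g ≤ 2 * B * (2 / c * t) * ((1 + 2 * ρ / c) ^ k * ((1 + X) ^ k)⁻¹) := by linarith
    _ = (2 * B * (2 / c) * (1 + 2 * ρ / c) ^ k) * t * ((1 + X) ^ k)⁻¹ := by ring
    _ ≤ (E * 2 ^ k) * t * ((1 + X) ^ k)⁻¹ +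
        (2 * B * (2 / c) * (1 + 2 * ρ / c) ^ k) * t * ((1 + X) ^ k)⁻¹ := by linarith
    _ = _ := by ring

theorem aux_near (B E c ρ X t g : ℝ) (k : ℕ) (hB : 0 ≤ B) (hE : 0 ≤ E) (hc : 0 < c) (hρ : 0 ≤ ρ)
    (hX : 1 < X) (ht : 0 ≤ t) (hg : g ≤ E * t * (X ^ k)⁻¹) :
    g ≤ (E * 2 ^ k + 2 * B * (2 / c) * (1 + 2 * ρ / c) ^ k) * t * ((1 + X) ^ k)⁻¹ := by
  have hX0 : 0 < X := by linarith
  have h1 : (X ^ k)⁻¹ ≤ 2 ^ k * ((1 + X) ^ k)⁻¹ := by
    rw [← div_eq_mul_inv, ← div_pow, ← inv_pow]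
    refine pow_le_pow_left₀ (by positivity) ?_ _
    rw [inv_eq_one_div, div_le_div_iff₀ hX0 (by positivity)]
    linarith
  have h2 : E * t * (X ^ k)⁻¹ ≤ E * t * (2 ^ k * ((1 + X) ^ k)⁻¹) :=
    mul_le_mul_of_nonneg_left h1 (by positivity)
  have h3 : 0 ≤ 2 * B * (2 / c) * (1 + 2 * ρ / c) ^ k * t * ((1 + X) ^ k)⁻¹ := by positivity
  have h4 : (E * 2 ^ k + 2 * B * (2 / c) * (1 + 2 * ρ / c) ^ k) * t * ((1 + X) ^ k)⁻¹ =
      E * t * (2 ^ k * ((1 + X) ^ k)⁻¹) +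
        2 * B * (2 / c) * (1 + 2 * ρ / c) ^ k * t * ((1 + X) ^ k)⁻¹ := by ring
  rw [h4]
  linarith

theorem cut_mem (a : ℝ) : 0 ≤ max 0 (min 1 (a - 1)) ∧ max 0 (min 1 (a - 1)) ≤ 1 :=
  ⟨le_max_left _ _, max_le zero_le_one (min_le_left _ _)⟩

/-! ## The mixed space -/

open mixedEmbedding

theorem nap_sub (w : InfinitePlace F) (x y : mixedSpace F) :
    |normAtPlace w x - normAtPlace w y| ≤ ‖x - y‖ := by
  rcases w.isReal_or_isComplex with hw | hw
  · rw [normAtPlace_apply_of_isReal hw, normAtPlace_apply_of_isReal hw]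
    refine (abs_norm_sub_norm_le _ _).trans ?_
    refine le_trans ?_ (norm_fst_le (x - y))
    exact norm_le_pi_norm (x - y).1 ⟨w, hw⟩
  · rw [normAtPlace_apply_of_isComplex hw, normAtPlace_apply_of_isComplex hw]
    refine (abs_norm_sub_norm_le _ _).trans ?_
    refine le_trans ?_ (norm_snd_le (x - y))
    exact norm_le_pi_norm (x - y).2 ⟨w, hw⟩

theorem log_norm (x : mixedSpace F) (hx : ∀ w, normAtPlace w x ≠ 0) :
    Real.log (mixedEmbedding.norm x) =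
      ∑ w : InfinitePlace F, (w.mult : ℝ) * Real.log (normAtPlace w x) := by
  rw [mixedEmbedding.norm_apply, Real.log_prod (fun w _ => pow_ne_zero _ (hx w))]
  refine Finset.sum_congr rfl fun w _ => ?_
  rw [Real.log_pow]

theorem log_norm_lip (x y : mixedSpace F) (hx : ∀ w, normAtPlace w x ≠ 0)
    (hy : ∀ w, normAtPlace w y ≠ 0) (δ : ℝ)
    (h : ∀ w, |Real.log (normAtPlace w x) - Real.log (normAtPlace w y)| ≤ δ) :
    |Real.log (mixedEmbedding.norm x) - Real.log (mixedEmbedding.norm y)| ≤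
      (Module.finrank ℚ F : ℝ) * δ := by
  rw [log_norm x hx, log_norm y hy, ← Finset.sum_sub_distrib]
  refine (Finset.abs_sum_le_sum_abs _ _).trans ?_
  rw [← InfinitePlace.sum_mult_eq (K := F)]
  push_cast
  rw [Finset.sum_mul]
  refine Finset.sum_le_sum fun w _ => ?_
  rw [← mul_sub, abs_mul, abs_of_nonneg (Nat.cast_nonneg _)]
  exact mul_le_mul_of_nonneg_left (h w) (Nat.cast_nonneg _)

theorem logMap_lip (x y : mixedSpace F) (hx : ∀ w, normAtPlace w x ≠ 0)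
    (hy : ∀ w, normAtPlace w y ≠ 0) (δ : ℝ) (hδ : 0 ≤ δ)
    (h : ∀ w, |Real.log (normAtPlace w x) - Real.log (normAtPlace w y)| ≤ δ) :
    ‖logMap x - logMap y‖ ≤ 4 * δ := by
  rw [pi_norm_le_iff_of_nonneg (by positivity)]
  intro w
  rw [Pi.sub_apply, logMap_apply, logMap_apply, Real.norm_eq_abs]
  have h1 := h w.1
  have h2 := log_norm_lip x y hx hy δ h
  have hd : (0 : ℝ) < (Module.finrank ℚ F : ℝ) := by
    exact_mod_cast Module.finrank_pos
  have h3 : |Real.log (mixedEmbedding.norm x) * (Module.finrank ℚ F : ℝ)⁻¹ -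
      Real.log (mixedEmbedding.norm y) * (Module.finrank ℚ F : ℝ)⁻¹| ≤ δ := by
    rw [← sub_mul, abs_mul, abs_of_nonneg (inv_nonneg.mpr hd.le)]
    rw [← div_eq_mul_inv, div_le_iff₀ hd, mul_comm δ]
    exact h2
  have h4 : (w.1.mult : ℝ) ≤ 2 := by
    have : w.1.mult ≤ 2 := by
      unfold InfinitePlace.mult
      split_ifs <;> norm_num
    exact_mod_cast this
  rw [← mul_sub, abs_mul, abs_of_nonneg (Nat.cast_nonneg _)]
  have h5 : |Real.log (normAtPlace w.1 x) - Real.log (mixedEmbedding.norm x) *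
      (Module.finrank ℚ F : ℝ)⁻¹ - (Real.log (normAtPlace w.1 y) -
        Real.log (mixedEmbedding.norm y) * (Module.finrank ℚ F : ℝ)⁻¹)| ≤ 2 * δ := by
    rw [abs_le] at h1 h3 ⊢
    constructor <;> linarith [h1.1, h1.2, h3.1, h3.2]
  calc _ ≤ (2 : ℝ) * (2 * δ) := by
        apply mul_le_mul h4 h5 (abs_nonneg _) (by norm_num)
    _ = 4 * δ := by ring

theorem uco_lip (F : Type) [Field F] [NumberField F] : ∃ K : ℝ, 0 ≤ K ∧
    ∀ (x y : mixedSpace F) (i : Fin (Units.rank F)),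
      |uco x i - uco y i| ≤ K * ‖logMap x - logMap y‖ := by
  have h1 : ∀ i : Fin (Units.rank F), ∃ K : ℝ, 0 ≤ K ∧
      ∀ x y : mixedSpace F, |uco x i - uco y i| ≤ K * ‖logMap x - logMap y‖ := by
    intro i
    let f := LinearMap.toContinuousLinearMap
      (((Units.basisUnitLattice F).ofZLatticeBasis ℝ (Units.unitLattice F)).coord i)
    refine ⟨‖f‖, norm_nonneg _, fun x y => ?_⟩
    have h2 := f.le_opNorm (logMap x - logMap y)
    have h3 : f (logMap x - logMap y) = uco x i - uco y i := by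
      rw [map_sub]
      rfl
    rw [h3, Real.norm_eq_abs] at h2
    exact h2
  choose K hK0 hK using h1
  refine ⟨∑ i, K i, Finset.sum_nonneg fun i _ => hK0 i, fun x y i => (hK i x y).trans ?_⟩
  refine mul_le_mul_of_nonneg_right ?_ (norm_nonneg _)
  exact Finset.single_le_sum (fun j _ => hK0 j) (Finset.mem_univ i)

/-- the value of the weight at a point with positive real coordinates -/
theorem wt_lip (hTEN : ST_TEN) (M : ℕ) (hM : 0 < M) (K : ℝ) (x y : mixedSpace F)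
    (hx : ∀ w, 0 < x.1 w) (hy : ∀ w, 0 < y.1 w) (δ : ℝ) (hδ : ∀ i, |uco x i - uco y i| ≤ K * δ) :
    |wt M x - wt M y| ≤ (Units.rank F : ℝ) * (K * δ) := by
  obtain ⟨hT1, -, hT3, -⟩ := hTEN
  unfold wt
  rw [if_pos hx, if_pos hy]
  refine (prod_lip _ _ _ (fun i => hT1 _) (fun i => hT1 _)).trans ?_
  have : ∀ i ∈ (Finset.univ : Finset (Fin (Units.rank F))),
      |tent (uco x i / M) - tent (uco y i / M)| ≤ K * δ := by
    intro i _
    refine (hT3 _ _).trans ?_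
    rw [← sub_div, abs_div, abs_of_nonneg (Nat.cast_nonneg M : (0 : ℝ) ≤ M)]
    have hM1 : (1 : ℝ) ≤ M := by exact_mod_cast hM
    exact (div_le_self (abs_nonneg _) hM1).trans (hδ i)
  refine (Finset.sum_le_sum this).trans ?_
  simp

theorem wt_mem (hTEN : ST_TEN) (M : ℕ) (x : mixedSpace F) : 0 ≤ wt M x ∧ wt M x ≤ 1 := by
  unfold wt
  split_ifs
  · exact ⟨Finset.prod_nonneg fun i _ => (hTEN.1 _).1,
      Finset.prod_le_one (fun i _ => (hTEN.1 _).1) fun i _ => (hTEN.1 _).2⟩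
  · exact ⟨le_rfl, zero_le_one⟩

/-- consequences of `gs M s x ≠ 0` -/
theorem of_gs_ne (M : ℕ) (s : ℝ) (hs : 1 ≤ s) (x : mixedSpace F) (h : gs M s x ≠ 0) :
    1 < ‖x‖ ∧ wt M x ≠ 0 ∧ mixedEmbedding.norm x ≠ 0 ∧ ∀ w, 0 < x.1 w := by
  unfold gs at h
  have h1 := left_ne_zero_of_mul (left_ne_zero_of_mul h)
  have h2 := right_ne_zero_of_mul (left_ne_zero_of_mul h)
  have h3 := right_ne_zero_of_mul h
  refine ⟨?_, h2, ?_, ?_⟩
  · by_contra h4
    apply h1
    rw [max_eq_left]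
    exact (min_le_right _ _).trans (by linarith [not_lt.mp h4])
  · intro h4
    rw [h4, Real.zero_rpow (by linarith)] at h3
    exact h3 rfl
  · unfold wt at h2
    by_contra h4
    rw [if_neg h4] at h2
    exact h2 rfl

theorem norm_ge (x : mixedSpace F) (m : ℝ) (hm : 0 ≤ m) (h : ∀ w, m ≤ normAtPlace w x) :
    m ^ (Module.finrank ℚ F) ≤ mixedEmbedding.norm x := by
  rw [mixedEmbedding.norm_apply, ← InfinitePlace.sum_mult_eq (K := F), ← Finset.prod_pow_eq_pow_sum]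
  exact Finset.prod_le_prod (fun w _ => pow_nonneg hm _) fun w _ => pow_le_pow_left₀ hm (h w) _

/-- the case when `y` is near `x` -/
theorem near (hTEN : ST_TEN) (M : ℕ) (hM : 0 < M) (K : ℝ) (hK0 : 0 ≤ K)
    (hK : ∀ (x y : mixedSpace F) (i : Fin (Units.rank F)),
      |uco x i - uco y i| ≤ K * ‖logMap x - logMap y‖) (c : ℝ) (hc : 0 < c) (hc1 : c ≤ 1)
    (s : ℝ) (hs1 : 1 ≤ s) (hs2 : s ≤ 2) (x y : mixedSpace F) (hx1 : 1 < ‖x‖)
    (hxw : ∀ w, 0 < x.1 w) (hxc : ∀ w, c * ‖x‖ ≤ normAtPlace w x)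
    (hxy : ‖x - y‖ ≤ c / 2 * ‖x‖) :
    |gs M s x - gs M s y| ≤ (((c / 2) ^ (2 * Module.finrank ℚ F))⁻¹ *
      (4 + (Units.rank F : ℝ) * (K * (8 / c)) + 2 * (Module.finrank ℚ F : ℝ) * (2 / c))) * ‖x - y‖ *
        (‖x‖ ^ (Module.finrank ℚ F + 1))⁻¹ := by
  set n := Module.finrank ℚ F with hn
  have hx0 : 0 < ‖x‖ := by linarith
  set m := c / 2 * ‖x‖ with hm
  have hm0 : 0 < m := by positivity
  have hxm : ∀ w, m ≤ normAtPlace w x := fun w => by
    have := hxc w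
    nlinarith
  have hym : ∀ w, m ≤ normAtPlace w y := fun w => by
    have h1 := hxc w
    have h2 := (abs_le.mp (nap_sub w x y)).2
    have : c * ‖x‖ = m + m := by rw [hm]; ring
    linarith
  have hyw : ∀ w, 0 < y.1 w := fun w => by
    have h1 := hxc w.1
    rw [normAtPlace_apply_of_isReal w.2, Real.norm_eq_abs] at h1
    have h2 : |x.1 w - y.1 w| ≤ ‖x - y‖ := by
      refine le_trans ?_ (norm_fst_le (x - y))
      exact norm_le_pi_norm (x - y).1 w
    have h3 : |x.1 ⟨w.1, w.2⟩| = x.1 w := abs_of_pos (hxw w)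
    rw [h3] at h1
    have : c * ‖x‖ = m + m := by rw [hm]; ring
    have := (abs_le.mp h2).2
    linarith
  set δ := ‖x - y‖ / m with hδ
  have hδ0 : 0 ≤ δ := by positivity
  have hlog : ∀ w, |Real.log (normAtPlace w x) - Real.log (normAtPlace w y)| ≤ δ := fun w =>
    (log_lip _ _ m hm0 (hxm w) (hym w)).trans (div_le_div_of_nonneg_right (nap_sub w x y) hm0.le)
  have hxn : ∀ w, normAtPlace w x ≠ 0 := fun w => (lt_of_lt_of_le hm0 (hxm w)).ne'
  have hyn : ∀ w, normAtPlace w y ≠ 0 := fun w => (lt_of_lt_of_le hm0 (hym w)).ne'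
  have hL := logMap_lip x y hxn hyn δ hδ0 hlog
  have hN := log_norm_lip x y hxn hyn δ hlog
  have hW : |wt M x - wt M y| ≤ (Units.rank F : ℝ) * (K * (4 * δ)) :=
    wt_lip hTEN M hM K x y hxw hyw (4 * δ) fun i =>
      (hK x y i).trans (mul_le_mul_of_nonneg_left hL hK0)
  have hC : |max 0 (min 1 (‖x‖ - 1)) - max 0 (min 1 (‖y‖ - 1))| ≤ 4 * ‖x - y‖ / ‖x‖ := by
    have h1 : |‖x‖ - ‖y‖| ≤ ‖x - y‖ := abs_norm_sub_norm_le _ _
    have h2 : |‖x‖ - ‖y‖| ≤ ‖x‖ / 2 := by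
      refine h1.trans (hxy.trans ?_)
      rw [hm]
      nlinarith
    refine (cut_lip _ _ hx1 h2).trans ?_
    gcongr
  -- the powers
  set P := (m ^ n) ^ (-s) with hP
  have hmn : 0 < m ^ n := by positivity
  have hPx := norm_ge x m hm0.le hxm
  have hPy := norm_ge y m hm0.le hym
  rw [← hn] at hPx hPy
  have hP0 : 0 < P := Real.rpow_pos_of_pos hmn _
  have hs0 : (0 : ℝ) ≤ s := by linarith
  have hPd : |mixedEmbedding.norm x ^ (-s) - mixedEmbedding.norm y ^ (-s)| ≤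
      P * (2 * ((n : ℝ) * δ)) := by
    refine (rpow_lip _ _ _ s hmn hPx hPy hs0).trans ?_
    refine mul_le_mul_of_nonneg_left ?_ hP0.le
    exact mul_le_mul hs2 hN (abs_nonneg _) (by norm_num)
  have hPx' : mixedEmbedding.norm x ^ (-s) ≤ P :=
    Real.rpow_le_rpow_of_nonpos hmn hPx (by linarith)
  have hPx0 : 0 ≤ mixedEmbedding.norm x ^ (-s) := Real.rpow_nonneg (by linarith) _
  -- the difference
  have hA1 := cut_mem ‖x‖
  have hA2 := cut_mem ‖y‖
  have hW1 := wt_mem hTEN M x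
  have hW2 := wt_mem hTEN M y
  unfold gs
  generalize max 0 (min 1 (‖x‖ - 1)) = A1 at *
  generalize max 0 (min 1 (‖y‖ - 1)) = A2 at *
  generalize wt M x = W1 at *
  generalize wt M y = W2 at *
  generalize mixedEmbedding.norm x ^ (-s) = P1 at *
  generalize mixedEmbedding.norm y ^ (-s) = P2 at *
  have hmain : |A1 * W1 * P1 - A2 * W2 * P2| ≤ (4 * ‖x - y‖ / ‖x‖) * P +
      ((Units.rank F : ℝ) * (K * (4 * δ))) * P + P * (2 * ((n : ℝ) * δ)) := by
    have h1 : A1 * W1 * P1 - A2 * W2 * P2 =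
        (A1 - A2) * (W1 * P1) + (W1 - W2) * (A2 * P1) + (P1 - P2) * (A2 * W2) := by ring
    rw [h1]
    have e1 : |(A1 - A2) * (W1 * P1)| ≤ (4 * ‖x - y‖ / ‖x‖) * P := by
      rw [abs_mul, abs_of_nonneg (mul_nonneg hW1.1 hPx0)]
      refine mul_le_mul hC ?_ (mul_nonneg hW1.1 hPx0) (by positivity)
      calc W1 * P1 ≤ 1 * P := mul_le_mul hW1.2 hPx' hPx0 zero_le_one
        _ = P := one_mul P
    have e2 : |(W1 - W2) * (A2 * P1)| ≤ ((Units.rank F : ℝ) * (K * (4 * δ))) * P := by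
      rw [abs_mul, abs_of_nonneg (mul_nonneg hA2.1 hPx0)]
      refine mul_le_mul hW ?_ (mul_nonneg hA2.1 hPx0) (by positivity)
      calc A2 * P1 ≤ 1 * P := mul_le_mul hA2.2 hPx' hPx0 zero_le_one
        _ = P := one_mul P
    have e3 : |(P1 - P2) * (A2 * W2)| ≤ P * (2 * ((n : ℝ) * δ)) := by
      rw [abs_mul, abs_of_nonneg (mul_nonneg hA2.1 hW2.1)]
      have : A2 * W2 ≤ 1 := by
        calc A2 * W2 ≤ 1 * 1 := mul_le_mul hA2.2 hW2.2 hW2.1 zero_le_one
          _ = 1 := one_mul 1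
      calc |P1 - P2| * (A2 * W2) ≤ |P1 - P2| * 1 := mul_le_mul_of_nonneg_left this (abs_nonneg _)
        _ ≤ _ := by rw [mul_one]; exact hPd
    exact (abs_add_three _ _ _).trans (by linarith)
  refine hmain.trans ?_
  -- the value of `P`
  have hc2 : 0 < c / 2 := by positivity
  have hPle : P ≤ ((c / 2) ^ (2 * n))⁻¹ * (‖x‖ ^ n)⁻¹ := by
    rw [hP, hm, mul_pow, Real.mul_rpow (by positivity) (by positivity)]
    refine mul_le_mul ?_ ?_ (by positivity) (by positivity)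
    · rw [← Real.rpow_natCast, ← Real.rpow_natCast, ← Real.rpow_mul hc2.le, ← Real.rpow_neg hc2.le]
      refine Real.rpow_le_rpow_of_exponent_ge hc2 (by linarith) ?_
      push_cast
      nlinarith [(Nat.cast_nonneg n : (0 : ℝ) ≤ n)]
    · rw [← Real.rpow_natCast, ← Real.rpow_mul hx0.le, ← Real.rpow_neg hx0.le]
      refine Real.rpow_le_rpow_of_exponent_le hx1.le ?_
      nlinarith [(Nat.cast_nonneg n : (0 : ℝ) ≤ n)]
  have hδ' : δ = 2 / c * (‖x - y‖ / ‖x‖) := by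
    rw [hδ, hm]
    field_simp
  have h1 : (4 * ‖x - y‖ / ‖x‖) * P + ((Units.rank F : ℝ) * (K * (4 * δ))) * P +
      P * (2 * ((n : ℝ) * δ)) = P * ((4 + (Units.rank F : ℝ) * (K * (8 / c)) +
        2 * (n : ℝ) * (2 / c)) * (‖x - y‖ / ‖x‖)) := by
    rw [hδ']
    ring
  rw [h1]
  have h2 : (((c / 2) ^ (2 * n))⁻¹ * (4 + (Units.rank F : ℝ) * (K * (8 / c)) +
      2 * (n : ℝ) * (2 / c))) * ‖x - y‖ * (‖x‖ ^ (n + 1))⁻¹ =
      (((c / 2) ^ (2 * n))⁻¹ * (‖x‖ ^ n)⁻¹) * ((4 + (Units.rank F : ℝ) * (K * (8 / c)) +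
        2 * (n : ℝ) * (2 / c)) * (‖x - y‖ / ‖x‖)) := by
    rw [pow_succ, mul_inv]
    ring
  rw [h2]
  refine mul_le_mul_of_nonneg_right hPle ?_
  positivity

end GLP95

open GLP95 mixedEmbedding in
theorem st_GLP (hTEN : ST_TEN) (hWSP : ST_WSP) (hGBD : ST_GBD) : ST_GLP := by
  intro F _ _ M hM ρ
  obtain ⟨c', hc'0, hc'⟩ := hWSP F M hM
  obtain ⟨K, hK0, hK⟩ := uco_lip F
  obtain ⟨B, hB⟩ := hGBD F M hM
  set n := Module.finrank ℚ F with hn
  set c := min c' 1 with hcdef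
  have hc0 : 0 < c := lt_min hc'0 one_pos
  have hc1 : c ≤ 1 := min_le_right _ _
  have hcc : c ≤ c' := min_le_left _ _
  -- `ρ ≥ 0` is needed
  by_cases hρ : ρ < 0
  · exact ⟨0, le_rfl, fun s _ _ x y h => absurd (norm_nonneg (x - y)) (by linarith)⟩
  replace hρ : 0 ≤ ρ := not_lt.mp hρ
  have hB0 : 0 ≤ B := by
    have := hB 1 le_rfl (by norm_num) 0
    have h2 : (1 + ‖(0 : mixedSpace F)‖) ^ (-((Module.finrank ℚ F : ℝ) * 1)) = 1 := by
      rw [norm_zero, add_zero, Real.one_rpow]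
    rw [h2] at this
    linarith [this.1, this.2]
  set E := ((c / 2) ^ (2 * n))⁻¹ *
      (4 + (Units.rank F : ℝ) * (K * (8 / c)) + 2 * (n : ℝ) * (2 / c)) with hE
  have hE0 : 0 ≤ E := by positivity
  -- the main claim, with `gs x ≠ 0`
  set D := E * 2 ^ (n + 1) + 2 * B * (2 / c) * (1 + 2 * ρ / c) ^ (n + 1) with hD
  have hD0 : 0 ≤ D := by positivity
  have key : ∀ (s : ℝ), 1 ≤ s → s ≤ 2 → ∀ x y : mixedSpace F, ‖x - y‖ ≤ ρ → gs M s x ≠ 0 →
      |gs M s x - gs M s y| ≤ D * ‖x - y‖ * ((1 + ‖x‖) ^ (n + 1))⁻¹ := by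
    intro s hs1 hs2 x y hxy hg
    obtain ⟨hx1, hxwt, hxn, hxw⟩ := of_gs_ne M s hs1 x hg
    have hxc : ∀ w, c * ‖x‖ ≤ normAtPlace w x := fun w =>
      (mul_le_mul_of_nonneg_right hcc (norm_nonneg _)).trans (hc' x hxwt hxn w)
    have hx0 : 0 < ‖x‖ := by linarith
    by_cases hnear : ‖x - y‖ ≤ c / 2 * ‖x‖
    · have h1 := near hTEN M hM K hK0 hK c hc0 hc1 s hs1 hs2 x y hx1 hxw hxc hnear
      rw [← hn, ← hE] at h1
      exact aux_near B E c ρ ‖x‖ ‖x - y‖ _ (n + 1) hB0 hE0 hc0 hρ hx1 (norm_nonneg _) h1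
    · replace hnear := not_le.mp hnear
      have hgb : ∀ z : mixedSpace F, 0 ≤ gs M s z ∧ gs M s z ≤ B := by
        intro z
        obtain ⟨h1, h2⟩ := hB s hs1 hs2 z
        refine ⟨h1, h2.trans ?_⟩
        have h3 : (1 + ‖z‖) ^ (-((Module.finrank ℚ F : ℝ) * s)) ≤ 1 := by
          apply Real.rpow_le_one_of_one_le_of_nonpos (by linarith [norm_nonneg z])
          have : 0 ≤ (Module.finrank ℚ F : ℝ) * s := by positivity
          linarith
        nlinarith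
      have hgx := hgb x
      have hgy := hgb y
      have h1 : |gs M s x - gs M s y| ≤ 2 * B := by
        rw [abs_le]
        constructor <;> linarith [hgx.1, hgx.2, hgy.1, hgy.2]
      exact aux_far B E c ρ ‖x‖ ‖x - y‖ _ (n + 1) hB0 hE0 hc0 hx1 hxy hnear h1
  refine ⟨D * (1 + ρ) ^ (n + 1), by positivity, fun s hs1 hs2 x y hxy => ?_⟩
  have hconv : (1 + ‖x‖) ^ (-((Module.finrank ℚ F : ℝ) + 1)) = ((1 + ‖x‖) ^ (n + 1))⁻¹ := by
    rw [← Real.rpow_natCast, ← Real.rpow_neg (by positivity)]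
    congr 1
    push_cast
    rw [hn]
  rw [hconv]
  by_cases hgx : gs M s x = 0
  · by_cases hgy : gs M s y = 0
    · rw [hgx, hgy, sub_self, abs_zero]
      positivity
    · have h1 := key s hs1 hs2 y x (by rw [norm_sub_rev]; exact hxy) hgy
      rw [abs_sub_comm, norm_sub_rev y x] at h1
      refine h1.trans ?_
      have h3 : ‖x‖ ≤ ‖y‖ + ρ := by
        have h4 := norm_add_le y (x - y)
        rw [add_sub_cancel] at h4
        linarith
      have h2 : ((1 + ‖y‖) ^ (n + 1))⁻¹ ≤ (1 + ρ) ^ (n + 1) * ((1 + ‖x‖) ^ (n + 1))⁻¹ :=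
        aux_inv _ _ ρ (n + 1) (norm_nonneg _) (norm_nonneg _) hρ h3
      calc D * ‖x - y‖ * ((1 + ‖y‖) ^ (n + 1))⁻¹
          ≤ D * ‖x - y‖ * ((1 + ρ) ^ (n + 1) * ((1 + ‖x‖) ^ (n + 1))⁻¹) :=
            mul_le_mul_of_nonneg_left h2 (by positivity)
        _ = _ := by ring
  · have h1 := key s hs1 hs2 x y hxy hgx
    exact h1.trans (aux_fin D _ ρ _ (n + 1) hD0 (norm_nonneg _)
      (inv_nonneg.mpr (pow_nonneg (by linarith [norm_nonneg x]) _)) hρ)

end REC
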